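import Pool.Agent.N683.HR.Fin
import Pool.Agent.N683.HR.Iso
import Pool.Agent.N683.HR.Ana
import Pool.Agent.N683.HR.Root

/-!
# The conjecture of Birch and Swinnerton-Dyer on the rank: reduction to curves of large rank

`K` is a number field, `E` an elliptic curve over `K` with `j(E) ≠ 0, 1728`, `L` a finite Galois
extension of `K`, for example `L = K(E[N])`, `S` a finite set of primes of `K`, for example the primes of
bad reduction, and `R` a natural number.  The rank conjecture for `E` over `K`, including the analytic
continuation of `L(E/K, s)` to `s = 1`, follows from the rank conjecture with the meromorphic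
continuation for `E` over finitely many finite extensions `F_i` of `K` over which the rank of `E` is at
least `R`, for which `L F_i / F_i` is cyclic, all local degrees above `S` are divisible by `n`, and which
have at most two real places.

The proof.  New points over the fixed fields of groups (`Pool.Agent.N683.HR`): let `F` be a number field,
`f = x^3 + A x + B` with a root in `F` or with a square discriminant.  There is a Moebius transformation
`M` over `F` of order `2` or `3` which permutes the roots of `f`; then
`f(M x) = κ f(x) / (γ x + δ)^3`, `γ ≠ 0`, and for every `v` the triples `x`, `M x`, `v` with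
`κ (γ x + δ) = f(v) w^2` have the property that `f(x) f(M x) f(v)` is a square.  So every automorphism of
the algebraic closure over `F` fixes one of the three points of `E` with the `x`-coordinates `x`, `M x`,
`v`, and its fixed field contains a root of `f` or the square root of the discriminant.  By induction `E`
has `R` independent points over the fixed fields of all cyclic subgroups of the Galois group of a suitable
finite extension.  Relations between the permutation characters (Artin induction), composed with those of
`Pool.Agent.N19.BR` with local and real conditions, give a relation with a coefficient `m ≥ 1` between the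
ranks and between the `L`-functions.  So `L(E/K, s)^m` has a meromorphic continuation, of order `m` times
the rank at `1`.  It has an `m`-th root on a neighbourhood of a segment from `1` to the half plane of
absolute convergence which avoids all other zeros and poles.
-/

set_option autoImplicit false

namespace Pool.Agent.Results.MP_32c55d_nt.HighRankBSD

open NumberField IsDedekindDomain
open Pool.Agent.R433.MD (Ext)
open Pool.Agent.N19.BR.Def
open scoped Classical

/-- The rank of the elliptic curve `E` over `K` over the extension `F = Z.F` of `K` is at least `R`. -/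
def RankAtLeast {K : Type} [Field K] [NumberField K] (R : ℕ) (E : WeierstrassCurve K) (Z : Ext K) :
    Prop :=
  (R : Cardinal) ≤ Module.rank ℤ (E.map (algebraMap K Z.F)).toAffine.Point

/-- **The two statements of the conjecture of Birch and Swinnerton-Dyer on the rank** for `E` over `K`:
`L(E/K, s)` continues analytically to a connected open subset `W` of `U` which contains `1` and the half
plane `Re s > 3/2`, and its order of vanishing at `s = 1` is the rank of `E(K)`. -/
def AnalyticRankFormula {K : Type} [Field K] [NumberField K] (U : Set ℂ) (E : WeierstrassCurve K) :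
    Prop :=
  ∃ (W : Set ℂ) (Λ : ℂ → ℂ) (r : ℕ), IsOpen W ∧ IsConnected W ∧ W ⊆ U ∧ (1 : ℂ) ∈ W ∧
    (∀ s : ℂ, 3 / 2 < s.re → s ∈ W) ∧ AnalyticOnNhd ℂ Λ W ∧
    (∃ V : HeightOneSpectrum (𝓞 K) → WeierstrassCurve (𝓞 K), MinimalModels E V) ∧
    (∀ V : HeightOneSpectrum (𝓞 K) → WeierstrassCurve (𝓞 K), MinimalModels E V →
      ∀ s : ℂ, 3 / 2 < s.re → Λ s = ∏' v, factor V s v) ∧
    Module.rank ℤ E.toAffine.Point = r ∧ analyticOrderAt Λ 1 = (r : ℕ∞)

/-- **Reduction of the rank conjecture to elliptic curves of large rank.**  Let `E` be an elliptic curve
over a number field `K` with `j(E) ≠ 0, 1728`, `L/K` a finite Galois extension, `S` a finite set of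
primes of `K`, `n ≥ 1` and `R` a natural number.  There are finitely many finite extensions `F_i` of `K`
such that
* `E(F_i)` has rank at least `R`;
* `L F_i / F_i` is cyclic, `n` divides the local degrees of `F_i / K` at all primes above `S`, and `F_i`
  has at most two real places;
* for all convex open `U` that contain `1` and the half plane `Re s > 3/2`, for example `U = ℂ`: if for
  all `i` the function `L(E/F_i, s)` has a meromorphic continuation to `U` with order at `1` equal to the
  rank of `E(F_i)`, then `L(E/K, s)` continues analytically to a connected open subset of `U` that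
  contains `1` and `Re s > 3/2`, and its order of vanishing at `1` is the rank of `E(K)`;
* for all connected `U` that contain `1` and the half plane: if for all `i` the function `L(E/F_i, s)` has
  a meromorphic continuation to `U` with order at `1` equal to the rank of `E(F_i)`, and `L(E/K, s)` has a
  meromorphic continuation to `U`, then its order at `1` is the rank of `E(K)`. -/
theorem result (K : Type) [Field K] [NumberField K] (E : WeierstrassCurve K) [E.IsElliptic]
    (h0 : E.j ≠ 0) (h1728 : E.j ≠ 1728) (L : Type) [Field L] [NumberField L] [Algebra K L]
    [IsGalois K L] (S : Set (HeightOneSpectrum (𝓞 K))) (hS : S.Finite) (n : ℕ) (hn : n ≠ 0)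
    (R : ℕ) :
    ∃ (k : ℕ) (F : Fin k → Ext K),
      (∀ i, RankAtLeast R E (F i) ∧ CyclicOver L (F i) ∧ LocalDegreesDivisible S n (F i) ∧
        AtMostTwoRealPlaces (F i)) ∧
      (∀ U : Set ℂ, IsOpen U → Convex ℝ U → 1 ∈ U → (∀ s : ℂ, 3 / 2 < s.re → s ∈ U) →
        (∀ i, RankFormula U 1 (E.map (algebraMap K (F i).F))) → AnalyticRankFormula U E) ∧
      ∀ U : Set ℂ, IsPreconnected U → 1 ∈ U → (∀ s : ℂ, 3 / 2 < s.re → s ∈ U) →
        (∀ i, RankFormula U 1 (E.map (algebraMap K (F i).F))) →
        (∃ Λ : ℂ → ℂ, Continues U 1 E Λ) → RankFormula U 1 E := by
  obtain ⟨k, F, e, m, hm, hrel, hF⟩ := Pool.Agent.N683.HR.list_rank Pool.Agent.N683.HR.iso K E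
    inferInstance h0 h1728 L S hS n hn R
  refine ⟨k, F, hF, fun U hU hc h1 hH hr => ?_, fun U hU h1 hH hr ⟨Λ, hΛ⟩ => ?_⟩
  · exact Pool.Agent.N683.HR.analytic_of_power Pool.Agent.N683.HR.root Pool.Agent.N683.HR.ana
      inferInstance hU hc h1 hH hm
      (Pool.Agent.N19.BR.rank_of_rel hm hrel hc.isPreconnected hH h1 inferInstance hr).1
  · exact (Pool.Agent.N19.BR.rank_of_rel hm hrel hU hH h1 inferInstance hr).2 Λ hΛ

/-- **Corollary.**  If the rank conjecture, with the meromorphic continuation to `ℂ`, holds for all
elliptic curves of rank at least `R` over all number fields, then it holds, with the analytic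
continuation to a connected open set that contains `1`, for all elliptic curves with `j ≠ 0, 1728` over
all number fields. -/
theorem rank_conjecture_of_large_rank (R : ℕ)
    (h : ∀ (F : Type) [Field F] [NumberField F] (E : WeierstrassCurve F), E.IsElliptic →
      (R : Cardinal) ≤ Module.rank ℤ E.toAffine.Point → RankFormula Set.univ 1 E)
    (K : Type) [Field K] [NumberField K] (E : WeierstrassCurve K) [E.IsElliptic]
    (h0 : E.j ≠ 0) (h1728 : E.j ≠ 1728) : AnalyticRankFormula Set.univ E := by
  obtain ⟨k, F, hF, h1, -⟩ := result K E h0 h1728 K ∅ Set.finite_empty 1 one_ne_zero R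
  exact h1 Set.univ isOpen_univ convex_univ (Set.mem_univ 1) (fun s _ => Set.mem_univ s)
    fun i => h (F i).F _ inferInstance (hF i).1

end Pool.Agent.Results.MP_32c55d_nt.HighRankBSD
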