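import Pool.Agent.N683.HR.Two

/-!
# Meromorphic continuation of the L-series of elliptic curves: reduction to curves of large rank

`K` is a number field, `E` an elliptic curve over `K` with `j(E) ≠ 0, 1728`, `L` a finite Galois
extension of `K`, for example `L = K(E[N])`, `S` a finite set of primes of `K`, for example the primes of
bad reduction, and `R` a natural number.  Some power `L(E/K, s) ^ (2 ^ a)` is, up to a meromorphic
function on `ℂ` without zeros and poles on `Re s > 3/2`, a product of integral powers of functions
`L(E/F_i, s)` for finite extensions `F_i` of `K` over which `E` has rank at least `R`, with restrictions on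
the Galois group of `L F_i / F_i`, the local degrees of `F_i / K` above `S`, and the real places of `F_i`.

The proof.  New points over the fixed fields of groups (`Pool.Agent.N683.HR`): let `F` be a number field,
`f = x^3 + A x + B` with a root in `F` or with a square discriminant.  There is a Moebius transformation
`M` over `F` of order `2` or `3` which permutes the roots of `f`; then
`f(M x) = κ f(x) / (γ x + δ)^3`, `γ ≠ 0`, and for every `v` the triples `x`, `M x`, `v` with
`κ (γ x + δ) = f(v) w^2` have the property that `f(x) f(M x) f(v)` is a square.  So an automorphism group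
`H` of the algebraic closure with a cyclic normal subgroup of odd index fixes one of the three points of
`E` with the `x`-coordinates `x`, `M x`, `v`, and the image of such a group in `Gal(F(E[2])/F)` fixes a root
of `f` or the square root of the discriminant.  By induction `E` has `R` independent points over the
fixed fields of all `p`-hyperelementary subgroups, `p` odd, of the Galois group of a suitable finite
extension.  These fields have relations between their permutation characters (Brauer induction,
`R433.MD`) which give the relations between the `L`-functions; the relations are composed with those of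
`Pool.Agent.N19.BR` with local and real conditions.
-/

set_option autoImplicit false

namespace Pool.Agent.Results.MP_0d9be2_nt.HighRankSuffices

open NumberField IsDedekindDomain
open Pool.Agent.R433.MD (Ext)
open Pool.Agent.N19.BR.Def
open scoped Classical

/-- For some odd prime number `p`, the Galois group of `L F / F`, `F = Z.F`, is `p`-hyperelementary, all
divisors of `n` prime to `p` divide the local degrees of `F / K` at the primes above `S`; and `F` has at
most two real places. -/
def OddClass {K : Type} [Field K] [NumberField K] (L : Type) [Field L] [Algebra K L]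
    (S : Set (HeightOneSpectrum (𝓞 K))) (n : ℕ) (Z : Ext K) : Prop :=
  ∃ p : ℕ, p.Prime ∧ p ≠ 2 ∧ HyperelementaryOver p L Z ∧
    (∀ k : ℕ, k ∣ n → k.Coprime p → LocalDegreesDivisible S k Z) ∧ AtMostTwoRealPlaces Z

/-- The rank of the elliptic curve `E` over `K` over the extension `F = Z.F` of `K` is at least `R`. -/
def RankAtLeast {K : Type} [Field K] [NumberField K] (R : ℕ) (E : WeierstrassCurve K) (Z : Ext K) :
    Prop :=
  (R : Cardinal) ≤ Module.rank ℤ (E.map (algebraMap K Z.F)).toAffine.Point

/-- The `L`-series of an elliptic curve over `F`, the product of the Euler factors of the minimal models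
`V`. -/
noncomputable def LFunction {F : Type} [Field F] [NumberField F]
    (V : HeightOneSpectrum (𝓞 F) → WeierstrassCurve (𝓞 F)) (s : ℂ) : ℂ := ∏' v, factor V s v

/-- **Reduction of the meromorphic continuation to elliptic curves of large rank.**  Let `E` be an
elliptic curve over a number field `K` with `j(E) ≠ 0, 1728`, `L/K` a finite Galois extension, `S` a finite
set of primes of `K`, `n ≥ 1` and `R` a natural number.  There are finitely many finite extensions `F_i`
of `K`, integers `e_i` and a natural number `a` such that
* `E(F_i)` has rank at least `R`;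
* for an odd prime number `p_i` the Galois group of `L F_i / F_i` is `p_i`-hyperelementary, and the part
  of `n` prime to `p_i` divides the local degrees of `F_i / K` above `S`; `F_i` has at most two real
  places;
* `L(E/K, s) ^ (2 ^ a) = ρ(s) ∏ L(E/F_i, s) ^ e_i` for `Re s > 3/2`, where `ρ` is meromorphic on `ℂ`
  and different from zero for `Re s > 3/2`;
* for all sets `U`, for example `U = ℂ`: if all `L(E/F_i, s)` have a meromorphic continuation to `U`, then
  `L(E/K, s) ^ (2 ^ a)` has a meromorphic continuation to `U`. -/
theorem result (K : Type) [Field K] [NumberField K] (E : WeierstrassCurve K) [E.IsElliptic]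
    (h0 : E.j ≠ 0) (h1728 : E.j ≠ 1728) (L : Type) [Field L] [NumberField L] [Algebra K L]
    [IsGalois K L] (S : Set (HeightOneSpectrum (𝓞 K))) (hS : S.Finite) (n : ℕ) (hn : n ≠ 0)
    (R : ℕ) :
    ∃ (k : ℕ) (F : Fin k → Ext K) (e : Fin k → ℤ) (a : ℕ),
      (∀ i, RankAtLeast R E (F i) ∧ OddClass L S n (F i)) ∧
      (∀ (V : HeightOneSpectrum (𝓞 K) → WeierstrassCurve (𝓞 K)) (_ : MinimalModels E V)
        (W : ∀ i, HeightOneSpectrum (𝓞 (F i).F) → WeierstrassCurve (𝓞 (F i).F))
        (_ : ∀ i, MinimalModels (E.map (algebraMap K (F i).F)) (W i)),
        ∃ ρ : ℂ → ℂ, MeromorphicOn ρ Set.univ ∧ ∀ s : ℂ, 3 / 2 < s.re → ρ s ≠ 0 ∧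
          LFunction V s ^ (2 ^ a) = ρ s * ∏ i, LFunction (W i) s ^ e i) ∧
      ∀ U : Set ℂ, (∀ i, ∃ Λ : ℂ → ℂ, Continues U 1 (E.map (algebraMap K (F i).F)) Λ) →
        ∃ Λ : ℂ → ℂ, Continues U (2 ^ a) E Λ := by
  obtain ⟨k, F, e, a, hrel, hF⟩ := Pool.Agent.N683.HR.list_two K E inferInstance h0 h1728 L S hS n hn R
  exact ⟨k, F, e, a, hF, fun V hV W hW => Pool.Agent.N683.HR.L_of_rel hrel inferInstance V hV W hW,
    fun U h => Pool.Agent.N683.HR.cont_of_rel hrel inferInstance h⟩

end Pool.Agent.Results.MP_0d9be2_nt.HighRankSuffices
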